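import Pool.Agent.Y870.TB.Grid
import Pool.Agent.Y870.TB.Null
import Pool.Agent.Y870.TB.Hall

/-!
# Tube nullity of Bedford-McMullen carpets and weights with uniform marginals

Weights `p ≥ 0` on the cells of `D` have uniform marginals if every row has weight `1 / n` and
every column has weight `1 / m`.
* If for every cell `d` of `D` there are such weights with `p d < 1 / n`, then `F(m, n, D)` is
  not tube null. This contains the grid without one cell (all `n > m ≥ 3`) and all `D` with
  equally many (at least two) cells in every row and equally many cells in every column.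
* If `D` carries no such weights, then `F(m, n, D)` is tube null (by Hall's theorem there is a
  counting obstruction, and the law of large numbers gives few vertical and horizontal tubes).
-/

set_option autoImplicit false

namespace Pool.Agent.Results.MP_ef0505_an.UniformMarginals

open Finset MeasureTheory

/-- the plane with its Euclidean metric and Lebesgue measure (area) -/
abbrev Plane := EuclideanSpace ℝ (Fin 2)

/-- the contraction `S_d (x, y) = ((x + i) / m, (y + j) / n)` of the cell `d = (i, j)` -/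
noncomputable def cellMap (m n : ℕ) (d : ℕ × ℕ) (z : Plane) : Plane :=
  !₂[(z 0 + d.1) / m, (z 1 + d.2) / n]

/-- `F` is the Bedford-McMullen carpet `F(m, n, D)`: nonempty, compact, and the union of its
images under the maps `S_d`, `d ∈ D` -/
def IsCarpet (m n : ℕ) (D : Finset (ℕ × ℕ)) (F : Set Plane) : Prop :=
  IsCompact F ∧ F.Nonempty ∧ F = ⋃ d ∈ D, cellMap m n d '' F

/-- `E` is tube null: for every `δ > 0` it is covered by a family of tubes with total width
less than `δ`. A tube is the open `r`-neighbourhood of a line (the line through two distinct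
points `p i`, `q i`); the family is finite or infinite. -/
def TubeNull (E : Set Plane) : Prop :=
  ∀ δ : ENNReal, 0 < δ → ∃ (ι : Type) (p q : ι → Plane) (r : ι → ℝ),
    (∀ i, p i ≠ q i ∧ 0 < r i) ∧
    E ⊆ ⋃ i, Metric.thickening (r i) (line[ℝ, p i, q i] : Set Plane) ∧
    ∑' i, ENNReal.ofReal (r i) < δ

/-- the same with segments of length at least `ℓ` in place of lines, and with the areas of
the tubes in place of their widths -/
def SegmentTubeNull (ℓ : ℝ) (E : Set Plane) : Prop :=
  ∀ δ : ENNReal, 0 < δ → ∃ (ι : Type) (p q : ι → Plane) (r : ι → ℝ),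
    (∀ i, ℓ ≤ dist (p i) (q i) ∧ 0 < r i) ∧
    E ⊆ ⋃ i, Metric.thickening (r i) (segment ℝ (p i) (q i)) ∧
    ∑' i, volume (Metric.thickening (r i) (segment ℝ (p i) (q i))) < δ

open Pool.Agent.Y870.TB Pool.Agent.W710.Tube in
/-- part (A) -/
theorem partA (m n : ℕ) (D : Finset (ℕ × ℕ)) (p : ℕ × ℕ → ℝ) (hm : 2 ≤ m) (hn : m < n)
    (hD : D ⊆ range m ×ˢ range n) (hp : ∀ d ∈ D, 0 ≤ p d ∧ p d < 1 / n)
    (hrow : ∀ j < n, ∑ d ∈ D with d.2 = j, p d = 1 / n)
    (hcol : ∀ i < m, ∑ d ∈ D with d.1 = i, p d = 1 / m) (F : Set Plane)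
    (hF : IsCarpet m n D F) : ¬ TubeNull F ∧ ∀ ℓ : ℝ, 0 < ℓ → ¬ SegmentTubeNull ℓ F := by
  obtain ⟨lam, hu, hsupp⟩ := uni_of_weights hm hn hD hp hrow hcol
  obtain ⟨K, hK, hcover⟩ := Pool.Agent.Y870.TB.strip_cover hu hD hsupp
  have width : ∀ {ι : Type} (p q : ι → Plane) (r : ι → ℝ), (∀ i, p i ≠ q i ∧ 0 < r i) →
      F ⊆ ⋃ i, Metric.thickening (r i) (line[ℝ, p i, q i] : Set Plane) →
      ∃ s : Finset ι, 1 / K ≤ ∑ i ∈ s, 2 * r i := by
    intro ι p q r h hcov
    have h1 := fun i => line_strip (h i).1 (r i)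
    choose α β t hN hsub using h1
    exact hcover F hF α β t (fun i => 2 * r i) hN (fun i => by
      have := (h i).2
      linarith) (hcov.trans (Set.iUnion_mono hsub))
  constructor
  · intro hT
    obtain ⟨ι, p, q, r, h, hcov, hsum⟩ := hT (ENNReal.ofReal (1 / (2 * K)))
      (ENNReal.ofReal_pos.2 (by positivity))
    obtain ⟨s, hs⟩ := width p q r h hcov
    refine absurd (lt_of_le_of_lt (ENNReal.sum_le_tsum s) hsum) (not_lt.2 ?_)
    rw [← ENNReal.ofReal_sum_of_nonneg fun i _ => (h i).2.le]
    apply ENNReal.ofReal_le_ofReal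
    rw [← mul_sum] at hs
    rw [div_le_iff₀ (by linarith)] at hs ⊢
    linarith
  · intro ℓ hℓ hT
    obtain ⟨ι, p, q, r, h, hcov, hsum⟩ := hT (ENNReal.ofReal (ℓ / (2 * K)))
      (ENNReal.ofReal_pos.2 (by positivity))
    have hne : ∀ i, p i ≠ q i := by
      intro i hi
      have := (h i).1
      rw [hi, dist_self] at this
      linarith
    obtain ⟨s, hs⟩ := width p q r (fun i => ⟨hne i, (h i).2⟩)
      (hcov.trans (Set.iUnion_mono fun i =>
        Metric.thickening_subset_of_subset _ (segment_subset_line _ _)))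
    refine absurd (lt_of_le_of_lt (ENNReal.sum_le_tsum s) hsum) (not_lt.2 ?_)
    have h1 : ∀ i ∈ s, ENNReal.ofReal (r i * ℓ) ≤
        volume (Metric.thickening (r i) (segment ℝ (p i) (q i))) := by
      intro i _
      refine le_trans (ENNReal.ofReal_le_ofReal ?_) (area_ge (p i) (q i) (h i).2)
      exact mul_le_mul_of_nonneg_left (h i).1 (h i).2.le
    refine le_trans ?_ (sum_le_sum h1)
    rw [← ENNReal.ofReal_sum_of_nonneg fun i _ => mul_nonneg (h i).2.le hℓ.le]
    apply ENNReal.ofReal_le_ofReal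
    rw [← mul_sum] at hs
    rw [← sum_mul]
    rw [div_le_iff₀ (by linarith)] at hs ⊢
    nlinarith

/-- `p` are weights on the cells of `D` with uniform marginals: every one of the `n` rows has
weight `1 / n` and every one of the `m` columns has weight `1 / m` -/
def UniformWeights (m n : ℕ) (D : Finset (ℕ × ℕ)) (p : ℕ × ℕ → ℝ) : Prop :=
  (∀ d ∈ D, 0 ≤ p d) ∧ (∀ j < n, ∑ d ∈ D with d.2 = j, p d = 1 / n) ∧
    (∀ i < m, ∑ d ∈ D with d.1 = i, p d = 1 / m)

/-- no tubes around lines of small total width, and no tubes around segments of length at least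
`ℓ` of small total area, whatever `ℓ > 0` is -/
def NotTubeNull (F : Set Plane) : Prop :=
  ¬ TubeNull F ∧ ∀ ℓ : ℝ, 0 < ℓ → ¬ SegmentTubeNull ℓ F

open Pool.Agent.Y870.TB Pool.Agent.W710.Tube in
/-- part (C) -/
theorem partC (m n : ℕ) (D : Finset (ℕ × ℕ)) (hm : 2 ≤ m) (hn : 2 ≤ n)
    (hD : D ⊆ range m ×ˢ range n) (hno : ¬ ∃ p, UniformWeights m n D p) (F : Set Plane)
    (hF : IsCarpet m n D F) : TubeNull F ∧ SegmentTubeNull 1 F := by
  obtain ⟨I, J, hI, hJ, hIJ, hlt⟩ : ∃ I J : Finset ℕ, I ⊆ range m ∧ J ⊆ range n ∧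
      (∀ d ∈ D, d.1 ∈ I → d.2 ∈ J) ∧ J.card * m < I.card * n := by
    by_contra hcon
    apply hno
    obtain ⟨p, h1, h2, h3⟩ := exists_weights (m := m) (n := n) (D := D) (by omega) (by omega) hD
      (by
        intro I J hI hJ hIJ
        by_contra hlt
        exact hcon ⟨I, J, hI, hJ, hIJ, by omega⟩)
    exact ⟨p, h1, h2, h3⟩
  have key : ∀ δ : ENNReal, 0 < δ → ∃ (ι : Type) (_ : Fintype ι) (P Q : ι → Plane) (r : ι → ℝ),
      (∀ x, 0 < r x ∧ dist (P x) (Q x) = 1 ∧
        volume (Metric.thickening (r x) (segment ℝ (P x) (Q x))) ≤ ENNReal.ofReal (10 * r x)) ∧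
      F ⊆ ⋃ x, Metric.thickening (r x) (segment ℝ (P x) (Q x)) ∧
      ENNReal.ofReal (10 * ∑ x, r x) < δ := by
    intro δ hδ
    obtain ⟨e, he0, he⟩ : ∃ e : ℝ, 0 < e ∧ ENNReal.ofReal e < δ := by
      rcases eq_or_ne δ ⊤ with h | h
      · exact ⟨1, one_pos, by rw [h]; exact ENNReal.ofReal_lt_top⟩
      · have h1 : 0 < δ.toReal := ENNReal.toReal_pos hδ.ne' h
        refine ⟨δ.toReal / 2, by positivity, ?_⟩
        rw [ENNReal.ofReal_lt_iff_lt_toReal (by positivity) h]
        linarith
    obtain ⟨ι, hι, P, Q, r, h1, h2, h3⟩ := few_tubes hm hn hD hF hI hJ hIJ hlt (e / 10)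
      (by positivity)
    refine ⟨ι, hι, P, Q, r, h1, h2, lt_of_le_of_lt (ENNReal.ofReal_le_ofReal ?_) he⟩
    linarith
  constructor
  · intro δ hδ
    obtain ⟨ι, hι, P, Q, r, h1, h2, h3⟩ := key δ hδ
    refine ⟨ι, P, Q, r, fun x => ⟨?_, (h1 x).1⟩, h2.trans (Set.iUnion_mono fun x =>
      Metric.thickening_subset_of_subset _ (segment_subset_line _ _)), ?_⟩
    · intro h
      have := (h1 x).2.1
      rw [h, dist_self] at this
      norm_num at this
    · refine lt_of_le_of_lt ?_ h3
      rw [tsum_fintype, ← ENNReal.ofReal_sum_of_nonneg fun x _ => (h1 x).1.le]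
      apply ENNReal.ofReal_le_ofReal
      have : 0 ≤ ∑ x, r x := sum_nonneg fun x _ => (h1 x).1.le
      linarith
  · intro δ hδ
    obtain ⟨ι, hι, P, Q, r, h1, h2, h3⟩ := key δ hδ
    refine ⟨ι, P, Q, r, fun x => ⟨(h1 x).2.1.ge, (h1 x).1⟩, h2, ?_⟩
    refine lt_of_le_of_lt ?_ h3
    rw [tsum_fintype, mul_sum, ENNReal.ofReal_sum_of_nonneg fun x _ => by
      have := (h1 x).1
      positivity]
    exact sum_le_sum fun x _ => (h1 x).2.2

/-- averaging: the weights may be chosen `< 1 / n` in all cells at once -/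
theorem averaging {m n : ℕ} {D : Finset (ℕ × ℕ)} (hn : 0 < n) (hne : D.Nonempty)
    (hD : D ⊆ range m ×ˢ range n)
    (h : ∀ d ∈ D, ∃ p, UniformWeights m n D p ∧ p d < 1 / n) :
    ∃ p, UniformWeights m n D p ∧ ∀ d ∈ D, p d < 1 / n := by
  choose! P hP1 hP2 using h
  have hc : (0 : ℝ) < D.card := by exact_mod_cast hne.card_pos
  refine ⟨fun e => (∑ d ∈ D, P d e) / D.card, ⟨?_, ?_, ?_⟩, ?_⟩
  · intro e he
    have : 0 ≤ ∑ d ∈ D, P d e := sum_nonneg fun d hd => (hP1 d hd).1 e he
    positivity
  · intro j hj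
    rw [← sum_div, sum_comm, sum_congr rfl (fun d hd => (hP1 d hd).2.1 j hj), sum_const,
      nsmul_eq_mul]
    field_simp
  · intro i hi
    rw [← sum_div, sum_comm, sum_congr rfl (fun d hd => (hP1 d hd).2.2 i hi), sum_const,
      nsmul_eq_mul]
    field_simp
  · intro e he
    rw [div_lt_iff₀ hc]
    have h1 : ∑ d ∈ D, P d e < ∑ _d ∈ D, 1 / (n : ℝ) := by
      refine sum_lt_sum ?_ ⟨e, he, hP2 e he⟩
      intro d hd
      have hj : e.2 < n := by
        have := hD he
        rw [mem_product, mem_range, mem_range] at this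
        exact this.2
      rw [← (hP1 d hd).2.1 e.2 hj]
      refine single_le_sum (f := fun d' => P d d') (fun d' hd' => ?_) ?_
      · rw [mem_filter] at hd'
        exact (hP1 d hd).1 d' hd'.1
      · rw [mem_filter]
        exact ⟨he, rfl⟩
    rw [sum_const, nsmul_eq_mul] at h1
    linarith

/-- Let `n > m ≥ 2`, `D` a set of cells of the grid with `m` columns and `n` rows, `F` its carpet.
(1) If for every cell `d` of `D` there are weights with uniform marginals whose weight at `d` is
`< 1 / n`, then `F` is not tube null. (2) If `D` carries no weights with uniform marginals, then `F` is tube null.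
(3) For all `n > m ≥ 3` the grid without one (arbitrary) cell gives a carpet that is not tube
null. (4) So does every `D` with exactly `R ≥ 2` cells in every row and exactly `C` cells in
every column. -/
theorem result :
    (∀ (m n : ℕ) (D : Finset (ℕ × ℕ)), 2 ≤ m → m < n → D ⊆ range m ×ˢ range n →
      ∀ F, IsCarpet m n D F →
        ((∀ d ∈ D, ∃ p, UniformWeights m n D p ∧ p d < 1 / n) → NotTubeNull F) ∧
        ((¬ ∃ p, UniformWeights m n D p) → TubeNull F ∧ SegmentTubeNull 1 F)) ∧
    (∀ (m n : ℕ), 3 ≤ m → m < n → ∀ d ∈ range m ×ˢ range n,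
      (∃ F, IsCarpet m n ((range m ×ˢ range n).erase d) F) ∧
      ∀ F, IsCarpet m n ((range m ×ˢ range n).erase d) F → NotTubeNull F) ∧
    (∀ (m n R C : ℕ) (D : Finset (ℕ × ℕ)), 2 ≤ m → m < n → 2 ≤ R →
      D ⊆ range m ×ˢ range n → (∀ j < n, (D.filter fun d => d.2 = j).card = R) →
      (∀ i < m, (D.filter fun d => d.1 = i).card = C) →
      (∃ F, IsCarpet m n D F) ∧ ∀ F, IsCarpet m n D F → NotTubeNull F) := by
  refine ⟨?_, ?_, ?_⟩
  · intro m n D hm hn hD F hF
    refine ⟨?_, fun hno => partC m n D hm (by omega) hD hno F hF⟩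
    intro hall
    have hne : D.Nonempty := by
      rw [nonempty_iff_ne_empty]
      rintro rfl
      obtain ⟨z, hz⟩ := hF.2.1
      rw [hF.2.2] at hz
      simp at hz
    obtain ⟨p, ⟨h1, h2, h3⟩, h4⟩ := averaging (by omega) hne hD hall
    exact partA m n D p hm hn hD (fun d hd => ⟨h1 d hd, h4 d hd⟩) h2 h3 F hF
  · intro m n hm hn d hd
    obtain ⟨h1, h2, h3⟩ := Pool.Agent.Y870.TB.gw_spec hm hn hd
    have hne : ((range m ×ˢ range n).erase d).Nonempty := by
      rw [nonempty_iff_ne_empty]
      intro h0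
      have h4 := h2 0 (by omega)
      rw [h0, filter_empty, sum_empty] at h4
      have : (0 : ℝ) < 1 / n := by
        have : (0 : ℝ) < n := by exact_mod_cast (by omega : 0 < n)
        positivity
      linarith
    refine ⟨Pool.Agent.W710.Tube.exists_carpet (by omega) (by omega) hne, fun F hF => ?_⟩
    exact partA m n _ _ (by omega) hn (erase_subset _ _) h1 h2 h3 F hF
  · intro m n R C D hm hn hR hD hrow hcol
    have hmR : (0 : ℝ) < m := by exact_mod_cast (by omega : 0 < m)
    have hnR : (0 : ℝ) < n := by exact_mod_cast (by omega : 0 < n)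
    have hRR : (2 : ℝ) ≤ R := by exact_mod_cast hR
    have c1 : D.card = n * R := by
      have h := card_eq_sum_card_fiberwise (f := fun d : ℕ × ℕ => d.2) (s := D) (t := range n)
        (fun d hd => by
          have := hD hd
          rw [mem_product] at this
          exact this.2)
      rw [h, sum_congr rfl (fun j hj => hrow j (mem_range.1 hj)), sum_const, card_range,
        smul_eq_mul]
    have c2 : D.card = m * C := by
      have h := card_eq_sum_card_fiberwise (f := fun d : ℕ × ℕ => d.1) (s := D) (t := range m)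
        (fun d hd => by
          have := hD hd
          rw [mem_product] at this
          exact this.1)
      rw [h, sum_congr rfl (fun i hi => hcol i (mem_range.1 hi)), sum_const, card_range,
        smul_eq_mul]
    have hC : (m : ℝ) * C = n * R := by exact_mod_cast (c2.symm.trans c1)
    have hne : D.Nonempty := by
      rw [← card_pos, c1]
      have : 0 < n := by omega
      positivity
    refine ⟨Pool.Agent.W710.Tube.exists_carpet (by omega) (by omega) hne, fun F hF => ?_⟩
    refine partA m n D (fun _ => 1 / ((n : ℝ) * R)) hm hn hD ?_ ?_ ?_ F hF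
    · intro d _
      refine ⟨by positivity, ?_⟩
      apply one_div_lt_one_div_of_lt hnR
      nlinarith
    · intro j hj
      rw [sum_const, hrow j hj, nsmul_eq_mul]
      field_simp
    · intro i hi
      rw [sum_const, hcol i hi, nsmul_eq_mul, ← hC]
      have hC0 : (C : ℝ) ≠ 0 := by
        intro h0
        rw [h0, mul_zero] at hC
        have : (0 : ℝ) < n * R := by positivity
        linarith
      field_simp

end Pool.Agent.Results.MP_ef0505_an.UniformMarginals
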